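import Mathlib
import Pool.Agent.Lib.MP_39f9da_an.Flow
import Pool.Agent.Lib.MP_39f9da_an.BSGroup

set_option autoImplicit false

namespace Pool.Agent.Results.MP_39f9da_an.FinitelyPresentedCounterexample

open scoped Pointwise

variable {G A : Type} [Group G]

/-- `X` is a subshift of finite type: there are a finite window `D` and a set `P` of patterns on `D`
such that `X` consists of the configurations `x` with `(g⁻¹ x)|_D ∈ P` for all `g`, where
`(g x) h = x (g⁻¹ h)`. -/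
def IsSFT (X : Set (G → A)) : Prop :=
  ∃ (D : Finset G) (P : Set (D → A)), X = {x | ∀ g : G, (fun d : D => x (g * d)) ∈ P}

/-- `X` is strongly irreducible: there is a finite set `Δ` such that for all finite `Ω₁`, `Ω₂` with
`Ω₁ Δ ∩ Ω₂ = ∅`, any two members of `X` can be glued along `Ω₁` and `Ω₂` inside `X`. -/
def IsStronglyIrreducible (X : Set (G → A)) : Prop :=
  ∃ Δ : Finset G, ∀ Ω₁ Ω₂ : Finset G,
    (∀ w ∈ Ω₁, ∀ d ∈ Δ, w * d ∉ Ω₂) →
    ∀ x₁ ∈ X, ∀ x₂ ∈ X, ∃ x ∈ X, (∀ w ∈ Ω₁, x w = x₁ w) ∧ (∀ w ∈ Ω₂, x w = x₂ w)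

/-- `x` is periodic: its orbit under the left shift `(g x) h = x (g⁻¹ h)` is finite. -/
def IsPeriodicConfig (x : G → A) : Prop :=
  (Set.range (fun g : G => fun h : G => x (g⁻¹ * h))).Finite

/-- The mirror image of the flow shift. -/
def mirrorFlow (a b : G) : Set (G → ZMod 2 × ZMod 2) :=
  {x | (fun g : G => x g⁻¹) ∈ Lib.MP_39f9da_an.flowShift a b}

lemma mirrorFlow_spec (a b : G) (hab : a * b = b * a)
    (hfree : ∀ m n : ℤ, a ^ m * b ^ n = 1 → m = 0 ∧ n = 0)
    (hodd : ∀ N : Subgroup G, N.Normal → N.FiniteIndex →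
      ∃ n : ℕ, Odd n ∧ a ^ n ∈ N ∧ b ^ n ∈ N) :
    (mirrorFlow a b).Nonempty ∧ IsSFT (mirrorFlow a b) ∧ IsStronglyIrreducible (mirrorFlow a b) ∧
      ∀ x ∈ mirrorFlow a b, ¬ IsPeriodicConfig x := by
  classical
  refine ⟨?_, ?_, ?_, ?_⟩
  · obtain ⟨x, hx⟩ := Lib.MP_39f9da_an.flowShift_nonempty a b hab hfree
    refine ⟨fun g => x g⁻¹, ?_⟩
    change (fun g : G => x (g⁻¹)⁻¹) ∈ Lib.MP_39f9da_an.flowShift a b
    simpa using hx
  · refine ⟨{1, a⁻¹, b⁻¹}, {p | (p ⟨1, by simp⟩).1 + (p ⟨a⁻¹, by simp⟩).1 + (p ⟨1, by simp⟩).2 +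
      (p ⟨b⁻¹, by simp⟩).2 = 1}, ?_⟩
    ext x
    constructor
    · intro hx g
      have h1 := hx g⁻¹
      simpa [mul_inv_rev] using h1
    · intro hx g
      have h1 := hx g⁻¹
      simpa [mul_inv_rev] using h1
  · obtain ⟨Δ, hΔ⟩ := Lib.MP_39f9da_an.flowShift_stronglyIrreducible a b hab hfree
    refine ⟨Δ⁻¹, ?_⟩
    intro Ω₁ Ω₂ hΩ x₁ hx₁ x₂ hx₂
    obtain ⟨z, hz, h1, h2⟩ := hΔ Ω₁⁻¹ Ω₂⁻¹ (by
      intro d hd w hw hdw
      rw [Finset.mem_inv'] at hw hdw
      apply hΩ w⁻¹ hw d⁻¹ (by rw [Finset.mem_inv', inv_inv]; exact hd)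
      rwa [← mul_inv_rev]) _ hx₁ _ hx₂
    refine ⟨fun g => z g⁻¹, ?_, ?_, ?_⟩
    · change (fun g : G => z (g⁻¹)⁻¹) ∈ Lib.MP_39f9da_an.flowShift a b
      simpa using hz
    · intro w hw
      have := h1 w⁻¹ (by rw [Finset.mem_inv', inv_inv]; exact hw)
      simpa using this
    · intro w hw
      have := h2 w⁻¹ (by rw [Finset.mem_inv', inv_inv]; exact hw)
      simpa using this
  · intro x hx hper
    apply Lib.MP_39f9da_an.flowShift_aperiodic a b hab hodd _ hx
    -- transport the orbit through inversion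
    have h1 : (fun z : G → ZMod 2 × ZMod 2 => fun h : G => z h⁻¹) ''
        (Set.range (fun g : G => fun h : G => x (g⁻¹ * h))) =
        Set.range (fun g : G => fun h : G => x (h * g)⁻¹) := by
      ext y
      constructor
      · rintro ⟨_, ⟨g, rfl⟩, rfl⟩
        exact ⟨g, by funext h; simp [mul_inv_rev]⟩
      · rintro ⟨g, rfl⟩
        exact ⟨_, ⟨g, rfl⟩, by funext h; simp [mul_inv_rev]⟩
    rw [← h1]
    exact hper.image _

/-- There are a finitely presented, residually finite, solvable group `G` and a nonempty strongly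
irreducible subshift of finite type over `G`, with a finite alphabet, which contains no periodic
configuration. -/
theorem result : ∃ (G : Type) (_ : Group G),
    Group.IsFinitelyPresented G ∧ Group.ResiduallyFinite G ∧ Group.IsSolvable G ∧
    ∃ (A : Type) (_ : Finite A) (X : Set (G → A)),
      X.Nonempty ∧ IsSFT X ∧ IsStronglyIrreducible X ∧ ∀ x ∈ X, ¬ IsPeriodicConfig x :=
  ⟨Lib.MP_39f9da_an.BS, inferInstance, inferInstance, inferInstance, inferInstance,
    ZMod 2 × ZMod 2, inferInstance, mirrorFlow Lib.MP_39f9da_an.BS.a Lib.MP_39f9da_an.BS.b,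
    mirrorFlow_spec _ _ Lib.MP_39f9da_an.BS.rel_ab Lib.MP_39f9da_an.BS.free_ab
      Lib.MP_39f9da_an.BS.odd_quotient⟩

end Pool.Agent.Results.MP_39f9da_an.FinitelyPresentedCounterexample
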